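import Pool.Agent.Q76.NdFinal

/-!
# The norm of the mixed second derivative on the disc spectrum space is `2/π`
-/

namespace Pool.Agent.Results.MP_7ba380_an.NormTwoOverPi

open Q76.Nd
open scoped ContDiff

/-- `‖∂²/∂x₁∂x₂‖ = 2/π` on `B(K_2)`; the norm is attained, at the origin, by `extremal`; and the
normal extremals are exactly the functions of the unit ball of `B(K_2)` with the values `±1`
prescribed at the points `±π√(k² - 1/4)` of the two diagonals. -/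
theorem result :
    (∀ f, InB f → ContDiff ℝ ∞ f) ∧
    IsGreatest {c : ℝ | ∃ f, InB f ∧ (∀ x, ‖f x‖ ≤ 1) ∧
      IsLUB (Set.range fun x => ‖mixed f x‖) c} (2 / Real.pi) ∧
    (∀ f, InB f → (∀ x, ‖f x‖ ≤ 1) → ∀ x, ‖mixed f x‖ ≤ 2 / Real.pi) ∧
    (InB extremal ∧ (∀ x, ‖extremal x‖ ≤ 1) ∧ mixed extremal 0 = 2 / Real.pi) ∧
    (∀ f, InB f → (∀ x, ‖f x‖ ≤ 1) →
      (mixed f 0 = 2 / Real.pi ↔ ∀ k : ℕ, 1 ≤ k →
        f ((Real.pi * √((k : ℝ) ^ 2 - 1 / 4)) • diagU) = (-1) ^ (k + 1) ∧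
        f (-((Real.pi * √((k : ℝ) ^ 2 - 1 / 4)) • diagU)) = (-1) ^ (k + 1) ∧
        f ((Real.pi * √((k : ℝ) ^ 2 - 1 / 4)) • diagV) = (-1) ^ k ∧
        f (-((Real.pi * √((k : ℝ) ^ 2 - 1 / 4)) • diagV)) = (-1) ^ k)) := by
  have hext : mixed extremal 0 = 2 / Real.pi := mixed_of_nodes InB_extremal nodes_extremal
  refine ⟨fun f hf => hf.contDiff, ⟨⟨extremal, InB_extremal, norm_extremal_le, ?_⟩, ?_⟩,
    fun f hf h1 x => norm_mixed_le hf h1 x,
    ⟨InB_extremal, norm_extremal_le, hext⟩, fun f hf h1 => ⟨fun h => nodes_of_mixed hf h1 h,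
      fun h => mixed_of_nodes hf h⟩⟩
  · constructor
    · rintro _ ⟨x, rfl⟩
      exact norm_mixed_le InB_extremal norm_extremal_le x
    · intro c hc
      have h1 : ‖mixed extremal 0‖ ≤ c := hc ⟨0, rfl⟩
      rw [hext, norm_div, Complex.norm_real, Real.norm_eq_abs, abs_of_pos Real.pi_pos,
        Complex.norm_ofNat] at h1
      exact h1
  · rintro c ⟨f, hf, h1, hc⟩
    refine hc.2 ?_
    rintro _ ⟨x, rfl⟩
    exact norm_mixed_le hf h1 x

end Pool.Agent.Results.MP_7ba380_an.NormTwoOverPi
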